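import Pool.Agent.Y53.DG.Stm

/-! DG-ABS: absorbing all points outside `D 0`. -/

set_option autoImplicit false

namespace Pool.Agent.Y941.DG
open Finset Equiv Equiv.Perm Pool.Agent.H84R2.Bab Pool.Agent.Y53.DG

theorem geo (J : ℕ) : ∑ j ∈ range J, ((3 : ℝ) / 4) ^ j ≤ 4 := by
  have h : ∀ J : ℕ, ∑ j ∈ range J, ((3 : ℝ) / 4) ^ j = 4 - 4 * (3 / 4) ^ J := by
    intro J
    induction J with
    | zero => norm_num
    | succ J ih =>
      rw [sum_range_succ, ih, pow_succ]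
      ring
  rw [h]
  have : (0 : ℝ) < (3 / 4) ^ J := by positivity
  linarith

theorem sqrt_bd (l q j : ℕ) (hq : 2 ^ 18 * (l + 1) ^ 2 ≤ q) :
    √(128 / ((4 * q * 2 ^ j : ℕ) : ℝ)) ≤ 1 / (64 * ((l : ℝ) + 1)) * (3 / 4) ^ j := by
  rw [Real.sqrt_le_iff]
  refine ⟨by positivity, ?_⟩
  have hl : (0 : ℝ) < (l : ℝ) + 1 := by positivity
  have hq' : (2 : ℝ) ^ 18 * ((l : ℝ) + 1) ^ 2 ≤ q := by exact_mod_cast hq
  have hq0 : (0 : ℝ) < q := lt_of_lt_of_le (by positivity) hq'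
  have h1 : (1 : ℝ) ≤ (9 / 8) ^ j := one_le_pow₀ (by norm_num)
  have h2 : ((3 : ℝ) / 4) ^ j * (3 / 4) ^ j * 2 ^ j = (9 / 8) ^ j := by
    rw [← mul_pow, ← mul_pow]
    norm_num
  push_cast
  rw [div_le_iff₀ (by positivity)]
  have h3 : (1 / (64 * ((l : ℝ) + 1)) * (3 / 4) ^ j) ^ 2 * (4 * (q : ℝ) * 2 ^ j) =
      4 * (q : ℝ) / (64 * ((l : ℝ) + 1)) ^ 2 * ((3 / 4) ^ j * (3 / 4) ^ j * 2 ^ j) := by
    field_simp
  rw [h3, h2]
  have h4 : (128 : ℝ) ≤ 4 * (q : ℝ) / (64 * ((l : ℝ) + 1)) ^ 2 := by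
    rw [le_div_iff₀ (by positivity)]
    nlinarith
  calc (128 : ℝ) = 128 * 1 := by ring
    _ ≤ 4 * (q : ℝ) / (64 * ((l : ℝ) + 1)) ^ 2 * (9 / 8) ^ j := by gcongr

theorem sum_bd (l q J : ℕ) (hq : 2 ^ 18 * (l + 1) ^ 2 ≤ q) :
    ∑ i : Fin J × Fin (8 * l), √(128 / ((4 * q * 2 ^ (i.1 : ℕ) : ℕ) : ℝ)) ≤ 1 / 2 := by
  have hl : (0 : ℝ) < (l : ℝ) + 1 := by positivity
  calc ∑ i : Fin J × Fin (8 * l), √(128 / ((4 * q * 2 ^ (i.1 : ℕ) : ℕ) : ℝ))
      ≤ ∑ i : Fin J × Fin (8 * l), 1 / (64 * ((l : ℝ) + 1)) * (3 / 4) ^ (i.1 : ℕ) :=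
        sum_le_sum fun i _ => sqrt_bd l q i.1 hq
    _ = 8 * l * (1 / (64 * ((l : ℝ) + 1))) * ∑ j ∈ range J, ((3 : ℝ) / 4) ^ j := by
        rw [Fintype.sum_prod_type]
        simp only [sum_const, card_univ, Fintype.card_fin, nsmul_eq_mul]
        rw [← mul_sum, ← mul_sum, Fin.sum_univ_eq_sum_range (fun j => ((3 : ℝ) / 4) ^ j) J]
        push_cast
        ring
    _ ≤ 8 * l * (1 / (64 * ((l : ℝ) + 1))) * 4 := by
        gcongr
        exact geo J
    _ ≤ 1 / 2 := by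
        rw [mul_one_div, div_mul_eq_mul_div, div_le_div_iff₀ (by positivity) (by norm_num)]
        linarith

theorem abs (hAB : S_AB) (hall : S_ALL) (hglue : S_GLUE) (hswap : S_SWAP) (hsel : S_SEL) :
    S_ABS := by
  intro Ω _ _ S Γ l q J L D hΓ hS hcard hq hD hgood hΩ hL
  have hq1 : 1 ≤ q := le_trans (Nat.one_le_iff_ne_zero.2 (by positivity)) hq
  obtain ⟨P, F, hdis, hPF, hPc, hPFc, hPD, hFD, hcov⟩ := hsel Ω l q J D hq1 hD hΩ
  have hRgood : ∀ i, Good S 4 (P i ∪ F i) := fun i =>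
    hgood i.1 i.1.2.le (P i ∪ F i) (hPFc i)
      (disjoint_union_left.2 ⟨hPD i, hFD i i.1 i.1.2.le⟩)
  have hsum : ∑ i, √(128 / (((P i ∪ F i).card : ℕ) : ℝ)) ≤ 1 / 2 := by
    simp only [hPFc]
    exact sum_bd l q J hq
  have hpos : ∀ j : ℕ, 1 ≤ q * 2 ^ j := fun j => Nat.one_le_iff_ne_zero.2 (by positivity)
  have hne : ∀ i, (P i ∪ F i).Nonempty := by
    intro i
    rw [← card_pos, hPFc]
    have := hpos i.1
    nlinarith
  have hF : ∀ i, (P i).card + 2 ≤ (F i).card := by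
    intro i
    have h1 := hPFc i
    rw [card_union_of_disjoint (hPF i i)] at h1
    have h2 := hPc i
    have h3 := hpos i.1
    have h4 : 4 * q * 2 ^ (i.1 : ℕ) = 4 * (q * 2 ^ (i.1 : ℕ)) := by ring
    omega
  have hex : ∀ i, ∃ h ∈ AltOn (P i ∪ F i), ∀ x ∈ P i, h x ∈ F i := fun i =>
    hswap Ω (P i) (F i) (hPF i i) (hF i)
  choose h hh1 hh2 using hex
  obtain ⟨H, hH1, hH2⟩ := hglue Ω (Fin J × Fin (8 * l)) (fun i => P i ∪ F i) hdis h
    fun i x hx => (hh1 i).2 x hx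
  have hLH : Len S (4 * (l + 1)) H := hall Ω S Γ l hΓ hS hcard (Fin J × Fin (8 * l))
    (fun i => P i ∪ F i) hdis hsum hne hRgood h hh1 H hH1 hH2
  set A : Finset Ω := univ \ D J with hA
  set B : Finset Ω := univ.filter (fun x => H x ∈ A) with hB
  have hmA : ∀ x, x ∈ A ↔ x ∉ D J := fun x => by simp [hA]
  have hmB : ∀ x, x ∈ B ↔ H x ∉ D J := fun x => by simp [hB, hmA]
  have hBgood : Good S (L + 8 * (l + 1)) B := by
    intro σ hσ
    have h1 : H * σ * H⁻¹ ∈ AltOn A := by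
      refine ⟨?_, fun y hy => ?_⟩
      · rw [Perm.sign_mul, Perm.sign_mul, Perm.sign_inv, hσ.1, mul_one, Int.units_mul_self]
      · have e1 : H (H⁻¹ y) = y := by
          rw [← Perm.mul_apply, mul_inv_cancel, Perm.one_apply]
        rw [Perm.mul_apply, Perm.mul_apply, hσ.2 (H⁻¹ y) ?_, e1]
        rw [hB, mem_filter, not_and, e1]
        exact fun _ => hy
    have h2 := (hL _ h1).conj hLH
    have h3 : H⁻¹ * (H * σ * H⁻¹) * H = σ := by group
    rw [h3] at h2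
    exact h2.mono (by omega)
  have hDJ := hD J le_rfl
  have hcA : (B \ A).card + 2 ≤ (A ∩ B).card := by
    have h1 : (B \ A).card ≤ (D J).card := by
      refine card_le_card fun x hx => ?_
      rw [mem_sdiff, hmA, not_not] at hx
      exact hx.2
    have h2 : ((A ∩ B)ᶜ : Finset Ω).card ≤ (D J).card + (D J).card := by
      have h3 : (A ∩ B)ᶜ ⊆ D J ∪ (D J).image (fun x => H⁻¹ x) := by
        intro x hx
        rw [mem_compl, mem_inter, hmA, hmB, not_and_or, not_not, not_not] at hx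
        rw [mem_union, mem_image]
        rcases hx with hx | hx
        · exact Or.inl hx
        · exact Or.inr ⟨H x, hx, by rw [← Perm.mul_apply, inv_mul_cancel, Perm.one_apply]⟩
      refine (card_le_card h3).trans ((card_union_le _ _).trans ?_)
      exact Nat.add_le_add_left card_image_le _
    have h4 : ((A ∩ B)ᶜ : Finset Ω).card = Fintype.card Ω - (A ∩ B).card := card_compl _
    have h5 : (A ∩ B).card ≤ Fintype.card Ω := card_le_univ _
    have h6 := hpos J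
    have h7 : 64 * (l + 1) * (4 * q * 2 ^ J) =
        64 * (l * (4 * q * 2 ^ J)) + 256 * (q * 2 ^ J) := by ring
    omega
  have hfin := hAB Ω S A B L (L + 8 * (l + 1)) hcA hL hBgood
  refine hfin.mono (fun x hx => ?_) (by omega)
  rw [mem_union, hmA, hmB]
  by_cases hxJ : x ∈ D J
  · right
    have hx0 : x ∉ D 0 := by simpa using hx
    obtain ⟨i, hi⟩ := hcov x hxJ hx0
    rw [hH1 i x (mem_union_left _ hi)]
    exact disjoint_left.1 (hFD i J le_rfl) (hh2 i x hi)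
  · exact Or.inl hxJ

end Pool.Agent.Y941.DG
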